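import Pool.Agent.R620.MTL.Gam

/-!
# Continuum many axiomatic extensions of `FL_ew` have the deductive interpolation property

The logics are those of the classes of chains used for `MP_6be952_lc`; they are axiomatic extensions
of MTL and thus of `FL_ew`.
-/

set_option autoImplicit false

universe u

namespace Pool.Agent.Results.MP_db33a0_lc.Continuum

open Pool.Agent.R620.MTL

/-- `FL_ew`-algebras: bounded lattices with a commutative monoid structure `(·, 1)`, with `1` the top
element, and a residuum. The constants `e` and `f` are `1` and `⊥`. -/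
class FLewAlgebra (A : Type u) extends Lattice A, BoundedOrder A, CommMonoid A where
  /-- the residuum `x → y` -/
  res : A → A → A
  mul_le_iff : ∀ x y z : A, x * y ≤ z ↔ x ≤ res y z
  one_eq_top : (1 : A) = ⊤

/-- The value of a formula under a valuation. -/
def evalF {A : Type u} [FLewAlgebra A] (v : ℕ → A) : Fm → A
  | .var i => v i
  | .zero => ⊥
  | .one => 1
  | .and φ ψ => evalF v φ ⊓ evalF v ψ
  | .or φ ψ => evalF v φ ⊔ evalF v ψ
  | .conj φ ψ => evalF v φ * evalF v ψ
  | .imp φ ψ => FLewAlgebra.res (evalF v φ) (evalF v ψ)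

/-- `Γ ⊢ φ` in `FL_ew`: every valuation into an `FL_ew`-algebra that sends all members of `Γ` to `1`
sends `φ` to `1`. -/
def FLCons (Γ : Set Fm) (φ : Fm) : Prop :=
  ∀ (A : Type) [FLewAlgebra A] (v : ℕ → A), (∀ γ ∈ Γ, evalF v γ = 1) → evalF v φ = 1

/-- The relation `L` (between sets of formulas and formulas) is an axiomatic extension of `FL_ew`:
for some set `S` of formulas, closed under substitution, `L` is the consequence relation of `FL_ew`
with the members of `S` added as axioms. -/
def IsFLewExt (L : Set Fm → Fm → Prop) : Prop :=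
  ∃ S : Set Fm, (∀ (σ : ℕ → Fm), ∀ φ ∈ S, subst σ φ ∈ S) ∧ ∀ Γ φ, L Γ φ ↔ FLCons (Γ ∪ S) φ

open FLewAlgebra in
theorem one_res' {A : Type u} [FLewAlgebra A] (x : A) : res 1 x = x := by
  apply le_antisymm
  · have := (mul_le_iff (res 1 x) 1 x).2 le_rfl
    rwa [mul_one] at this
  · rw [← mul_le_iff, mul_one]

theorem foldr_oneF {A : Type} [FLewAlgebra A] (v : ℕ → A) (l : List Fm) (ψ : Fm)
    (h : evalF v (l.foldr imp3 ψ) = 1) (hl : ∀ γ ∈ l, evalF v γ = 1) : evalF v ψ = 1 := by
  induction l with
  | nil => simpa using h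
  | cons a l ih =>
    rw [List.foldr_cons] at h
    have ha := hl a (by simp)
    simp only [imp3, evalF, ha, one_res'] at h
    exact ih h fun γ hγ => hl γ (by simp [hγ])

/-- The chains as `FL_ew`-algebras. -/
@[reducible] noncomputable def algF {I : Type} [LinearOrder I] (μ : I → ℤ → Prop) :
    FLewAlgebra (El I) where
  toLattice := (El.alg μ).toLattice
  toBoundedOrder := (El.alg μ).toBoundedOrder
  toCommMonoid := (El.alg μ).toCommMonoid
  res := El.res μ
  mul_le_iff := El.mul_le_iff' μ
  one_eq_top := rfl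

theorem evalF_alg {I : Type} [LinearOrder I] (μ : I → ℤ → Prop) (v : ℕ → El I) (φ : Fm) :
    @evalF (El I) (algF μ) v φ = El.ev μ v φ := by
  induction φ with
  | var i => rfl
  | zero => rfl
  | one => rfl
  | and φ ψ h1 h2 => simp only [evalF, El.ev, h1, h2]
  | or φ ψ h1 h2 => simp only [evalF, El.ev, h1, h2]
  | conj φ ψ h1 h2 => simp only [evalF, El.ev, h1, h2]; rfl
  | imp φ ψ h1 h2 => simp only [evalF, El.ev, h1, h2]; rfl

theorem isFLewExt (S : Set ℕ) : IsFLewExt (KCons S) := by
  refine ⟨{φ | KCons S ∅ φ}, fun σ φ h I _ μ hμ v hv => ?_, fun Γ φ => ⟨fun h => ?_, fun h => ?_⟩⟩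
  · have h1 := @eval_subst (El I) (El.alg μ) v σ φ
    simp only [El.eval_alg] at h1
    rw [h1]
    exact h I μ hμ _ (by simp)
  · obtain ⟨l, hl, hφ⟩ := compact h
    intro A _ v hv
    refine foldr_oneF v l φ (hv _ (Or.inr ?_)) fun γ hγ => hv γ (Or.inl (hl γ hγ))
    intro I _ μ hμ u _
    rw [ev_foldr]
    exact hφ I μ hμ u
  · intro I _ μ hμ v hv
    have h1 := @h (El I) (algF μ) v
    simp only [evalF_alg] at h1
    refine h1 ?_
    rintro γ (h2 | h2)
    · exact hv γ h2
    · exact h2 I μ hμ v (by simp)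

theorem card_le : Cardinal.mk {L : Set Fm → Fm → Prop | IsFLewExt L ∧ DIP L} ≤
    Cardinal.continuum := by
  have h1 : ∀ L : {L : Set Fm → Fm → Prop | IsFLewExt L ∧ DIP L}, ∃ S : Set Fm,
      ∀ Γ φ, L.1 Γ φ ↔ FLCons (Γ ∪ S) φ := fun L => by
    obtain ⟨S, _, hS⟩ := L.2.1
    exact ⟨S, hS⟩
  choose f hf using h1
  have hinj : Function.Injective f := by
    intro L L' h
    apply Subtype.ext
    funext Γ φ
    exact propext (by rw [hf, hf, h])
  refine (Cardinal.mk_le_of_injective hinj).trans ?_
  rw [Cardinal.mk_set, ← Cardinal.two_power_aleph0]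
  exact Cardinal.power_le_power_left (by norm_num) Cardinal.mk_le_aleph0

/-- The set of axiomatic extensions of `FL_ew` with the deductive interpolation property is
uncountable; it has the cardinality of the continuum. -/
theorem result :
    ¬ {L : Set Fm → Fm → Prop | IsFLewExt L ∧ DIP L}.Countable ∧
      Cardinal.mk {L : Set Fm → Fm → Prop | IsFLewExt L ∧ DIP L} = Cardinal.continuum := by
  have h1 : Cardinal.mk {L : Set Fm → Fm → Prop | IsFLewExt L ∧ DIP L} =
      Cardinal.continuum := by
    refine le_antisymm card_le ?_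
    rw [← Cardinal.mk_set_nat]
    refine Cardinal.mk_le_of_injective (f := fun S : Set ℕ =>
      (⟨KCons S, isFLewExt S, dip S⟩ : {L : Set Fm → Fm → Prop | IsFLewExt L ∧ DIP L})) ?_
    intro S S' h
    exact kcons_inj (congrArg Subtype.val h)
  refine ⟨fun h => ?_, h1⟩
  have h2 := Cardinal.le_aleph0_iff_set_countable.2 h
  rw [h1] at h2
  exact absurd Cardinal.aleph0_lt_continuum (not_lt_of_ge h2)

end Pool.Agent.Results.MP_db33a0_lc.Continuum
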